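import Mathlib
import Pool.Agent.Helper43.QN.Stage

/-!
# Even ⇒ odd (thread TH-F, `S00834`): the stage `(C, Z1 C U)`
-/

set_option autoImplicit false

namespace QE29

open QN43

section Z

variable {C U : Type} [Group C] [AddCommGroup U] [DistribMulAction C U]

theorem z1_ext {f g : Z1 C U} (h : ∀ x, f.1 x = g.1 x) : f = g := Subtype.ext (funext h)

@[simp] theorem z1_add (f g : Z1 C U) (x : C) : (f + g).1 x = f.1 x + g.1 x := rfl
@[simp] theorem z1_sub (f g : Z1 C U) (x : C) : (f - g).1 x = f.1 x - g.1 x := rfl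
@[simp] theorem z1_neg (f : Z1 C U) (x : C) : (-f).1 x = -f.1 x := rfl
@[simp] theorem z1_zero (x : C) : (0 : Z1 C U).1 x = 0 := rfl

/-- `c • f = f + δ(f c)` -/
theorem z1_smul_eq (c : C) (f : Z1 C U) : c • f = f + Z1.delta (f.1 c) := by
  refine z1_ext fun x => ?_
  have h : c • f.1 c⁻¹ = -f.1 c := by
    rw [Z1.inv, smul_neg, smul_inv_smul]
  rw [Z1.smul_apply, z1_add, Z1.delta_apply, mul_assoc, Z1.mul, smul_add, h, Z1.mul, ← mul_smul,
    mul_inv_cancel, one_smul]
  abel

theorem z1_smul_apply' (c : C) (f : Z1 C U) (x : C) : (c • f).1 x = f.1 x + (x • f.1 c - f.1 c) := by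
  rw [z1_smul_eq]
  rfl

theorem z1_smul_delta (c : C) (v : U) : c • (Z1.delta v : Z1 C U) = Z1.delta (c • v) := by
  refine z1_ext fun x => ?_
  rw [Z1.smul_apply, Z1.delta_apply, Z1.delta_apply, smul_sub, ← mul_smul, ← mul_smul]
  congr 2
  group

theorem delta_injective (hfix : ∀ v : U, (∀ c : C, c • v = v) → v = 0) :
    Function.Injective (Z1.delta : U → Z1 C U) := by
  rw [injective_iff_map_eq_zero]
  intro v hv
  apply hfix
  intro c
  have h3 : (Z1.delta v : Z1 C U).1 c = 0 := by
    rw [hv]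
    rfl
  rw [Z1.delta_apply] at h3
  exact sub_eq_zero.1 h3

theorem z1_smul_sub (c : C) (f : Z1 C U) : c • f - f = Z1.delta (f.1 c) := by
  rw [z1_smul_eq, add_sub_cancel_left]

/-- `c` acts trivially on the cocycles iff they all vanish at `c` -/
theorem z1_trivial_iff (hfix : ∀ v : U, (∀ c : C, c • v = v) → v = 0) (c : C) (f : Z1 C U) :
    c • f = f ↔ f.1 c = 0 := by
  rw [← sub_eq_zero, z1_smul_sub]
  constructor
  · intro h
    exact delta_injective hfix (by rw [h, map_zero])
  · intro h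
    rw [h, map_zero]

theorem z1_pow_of_trivial {c : C} (hc : ∀ v : U, c • v = v) (f : Z1 C U) (n : ℕ) :
    f.1 (c ^ n) = n • f.1 c := by
  induction n with
  | zero => simpa using Z1.one f
  | succ n ih =>
    have h : ∀ (m : ℕ) (v : U), c ^ m • v = v := by
      intro m v
      induction m with
      | zero => simp
      | succ m ih => rw [pow_succ, mul_smul, hc, ih]
    rw [pow_succ, Z1.mul, ih, h, succ_nsmul]

/-- cocycles vanish at elements of odd order acting trivially -/
theorem z1_odd (h2 : ∀ v : U, v + v = 0) {c : C} (hc : ∀ v : U, c • v = v) {n : ℕ} (hn : Odd n)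
    (h : c ^ n = 1) (f : Z1 C U) : f.1 c = 0 := by
  have h1 := z1_pow_of_trivial hc f n
  rw [h, Z1.one] at h1
  obtain ⟨k, rfl⟩ := hn
  have h2' : 2 • f.1 c = 0 := by rw [two_nsmul, h2]
  rw [succ_nsmul, mul_nsmul, h2', nsmul_zero, zero_add] at h1
  exact h1.symm

/-- an additive endomorphism commuting with `C` is post-composition with one of `U` -/
theorem z1_endo (hfix : ∀ v : U, (∀ c : C, c • v = v) → v = 0)
    (hgen : AddSubgroup.closure {v : U | ∃ (f : Z1 C U) (c : C), v = f.1 c} = ⊤)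
    (g : Z1 C U →+ Z1 C U) (hg : ∀ (c : C) (f : Z1 C U), g (c • f) = c • g f) :
    ∃ ψ : U →+ U, (∀ (f : Z1 C U) (c : C), (g f).1 c = ψ (f.1 c)) ∧
      ∀ (c : C) (v : U), ψ (c • v) = c • ψ v := by
  have hinj := delta_injective (C := C) hfix
  have h1 : ∀ v : U, ∃ w : U, g (Z1.delta v) = Z1.delta w := by
    intro v
    have hv : v ∈ AddSubgroup.closure {v : U | ∃ (f : Z1 C U) (c : C), v = f.1 c} := by
      rw [hgen]
      exact AddSubgroup.mem_top v
    refine AddSubgroup.closure_induction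
      (p := fun v _ => ∃ w : U, g (Z1.delta v) = Z1.delta w) ?_ ?_ ?_ ?_ hv
    · rintro x ⟨f, c, rfl⟩
      refine ⟨(g f).1 c, ?_⟩
      rw [← z1_smul_sub, map_sub, hg, z1_smul_sub]
    · exact ⟨0, by rw [map_zero, map_zero]⟩
    · rintro x y _ _ ⟨w, hw⟩ ⟨w', hw'⟩
      refine ⟨w + w', ?_⟩
      rw [map_add, map_add, hw, hw', map_add]
    · rintro x _ ⟨w, hw⟩
      refine ⟨-w, ?_⟩
      rw [map_neg, map_neg, hw, map_neg]
  choose ψ hψ using h1
  let Ψ : U →+ U :=
    { toFun := ψ
      map_zero' := by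
        apply hinj
        rw [← hψ, map_zero, map_zero]
      map_add' := fun v w => by
        apply hinj
        rw [← hψ, map_add, map_add, hψ, hψ, map_add] }
  have hΨ : ∀ v, g (Z1.delta v) = Z1.delta (Ψ v) := hψ
  refine ⟨Ψ, ?_, ?_⟩
  · intro f c
    apply hinj
    rw [← hΨ, ← z1_smul_sub c f, map_sub, hg, z1_smul_sub]
  · intro c v
    apply hinj
    rw [← hΨ, ← z1_smul_delta, hg, hΨ, z1_smul_delta]

end Z

section

variable {J B E W U O : Type}
    [AddCommGroup J] [Module (ZMod 2) J] [Module (ZMod 2)ᵐᵒᵖ J] [IsCentralScalar (ZMod 2) J]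
    [Ring B] [AddCommGroup E] [Module (A0 J) E] [AddCommGroup W] [Module (A0 J) W]
    [AddCommGroup U] [Module B U] [Group O] [DistribMulAction O W] [DistribMulAction O U]
    {κ : A0 J →+* B} {inc : E →+ W} {jU : U →+ (W →+ ZMod 2)} {Φ : J ≃+ (Fin 15 → W)}
    {p : NN0 κ E →* O}

/-- `U` has exponent two -/
theorem two_U (h : GFacts κ inc jU Φ p) (u : U) : u + u = 0 := by
  apply h.jInj
  rw [map_add, map_zero]
  ext w
  rw [AddMonoidHom.add_apply, AddMonoidHom.zero_apply, ← two_mul]
  have : (2 : ZMod 2) = 0 := rfl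
  rw [this, zero_mul]

theorem fixC (h : GFacts κ inc jU Φ p) {C : Type} [Group C] (q : C →* O) [DistribMulAction C U]
    (hU : ∀ (c : C) (u : U), c • u = q c • u) (hq : Function.Surjective q) (u : U)
    (hu : ∀ c : C, c • u = u) : u = 0 := by
  apply h.fixU
  intro o
  obtain ⟨c, rfl⟩ := hq o
  rw [← hU, hu]

/-- an element of order dividing `151` acts trivially -/
theorem q151 (h : GFacts κ inc jU Φ p) {C : Type} [Group C] (q : C →* O) (c : C) (hc : c ^ 151 = 1) :
    q c = 1 := by
  have : Finite O := h.finO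
  have : Fact (Nat.Prime 151) := ⟨by norm_num⟩
  have h1 : q c ^ 151 = 1 := by rw [← map_pow, hc, map_one]
  have h2 : orderOf (q c) ∣ 151 := orderOf_dvd_of_pow_eq_one h1
  rcases (Nat.dvd_prime (by norm_num : Nat.Prime 151)).1 h2 with h3 | h3
  · exact orderOf_eq_one_iff.1 h3
  · exact absurd (h3 ▸ orderOf_dvd_natCard (q c)) h.cop

/-- (E2) even ⇒ odd. -/
theorem odd_of_even (h : GFacts κ inc jU Φ p) {C : Type} [Group C] (q : C →* O)
    [DistribMulAction C U] [SMulCommClass C B U]
    (hU : ∀ (c : C) (u : U), c • u = q c • u) (hC : Even U q) :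
    Odd B C (Z1 C U) := by
  have hfix : ∀ u : U, (∀ c : C, c • u = u) → u = 0 := fun u hu => fixC h q hU hC.surj u hu
  have hinj := delta_injective (C := C) hfix
  have := hC.finC
  have := h.finU
  have htriv := z1_trivial_iff (C := C) hfix
  have h151 : ∀ c : C, c ^ 151 = 1 → ∀ u : U, c • u = u := by
    intro c hc u
    rw [hU, q151 h q c hc, one_smul]
  refine
    { finC := hC.finC
      finY := Finite.of_injective (fun f : Z1 C U => (f.1 : C → U)) Subtype.val_injective
      perf := hC.perf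
      endo := ?_
      faith := ?_
      fix := ?_
      inner := ?_
      piTriv := ?_
      piCent := ?_
      cent := ?_ }
  · intro g hg
    have hgen : AddSubgroup.closure {v : U | ∃ (f : Z1 C U) (c : C), v = f.1 c} = ⊤ := by
      rw [eq_top_iff, ← h.coinvU]
      refine AddSubgroup.closure_mono ?_
      rintro w ⟨o, u, rfl⟩
      obtain ⟨c, rfl⟩ := hC.surj o
      exact ⟨Z1.delta u, c, by rw [Z1.delta_apply, hU]⟩
    obtain ⟨ψ, h1, h2⟩ := z1_endo hfix hgen g hg
    obtain ⟨b, hb⟩ := h.endU ψ (fun o x => by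
      obtain ⟨c, rfl⟩ := hC.surj o
      rw [← hU, h2, hU])
    refine ⟨b, fun f => z1_ext fun x => ?_⟩
    rw [h1, hb]
    rfl
  · intro b hb
    apply h.faithU
    intro u
    apply hinj
    rw [map_zero, ← hb (Z1.delta u)]
    refine z1_ext fun x => ?_
    rw [Z1.delta_apply, Z1.bsmul_apply, Z1.delta_apply, smul_sub, smul_comm]
  · intro f hf
    refine z1_ext fun c => ?_
    exact (htriv c f).1 (hf c)
  · intro θ hθ
    apply hC.inner
    intro c hc f
    rw [← htriv]
    exact hθ c (fun f => (htriv c f).2 (hc f)) f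
  · intro c hc f
    rw [htriv]
    exact z1_odd (two_U h) (h151 c hc) (by decide : Odd 151) hc f
  · intro c _ hc
    exact hC.piCent c hc
  · intro c hc f
    have h1 : ∀ v : U, c • v = v := by
      intro v
      rw [hU]
      refine h.centU (q c) (fun o y => ?_) v
      obtain ⟨x, rfl⟩ := hC.surj o
      rw [← hU x, ← hU x, ← hU c, ← hU c]
      apply hinj
      have h2 := hc x (Z1.delta y)
      rw [z1_smul_delta, z1_smul_delta, z1_smul_delta, z1_smul_delta] at h2
      exact h2
    rw [htriv]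
    apply hfix
    intro x
    have h4 := hc x f
    rw [z1_smul_eq c (x • f), z1_smul_eq c f, smul_add, z1_smul_delta] at h4
    have h5 := hinj (add_left_cancel h4)
    rw [← h5, z1_smul_apply', h1, sub_self, add_zero]

end

end QE29
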