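import Mathlib
import Pool.Agent.Helper43.QN.QSpec
import Pool.Agent.Helper43.QN.Basic
import Pool.Agent.Helper58.AU.DD
import Pool.Agent.Helper29.QE.Odd

/-!
# The automorphisms of `V ⋊ C` (thread TH-F, `S00834`)
-/

set_option autoImplicit false
set_option linter.unusedSectionVars false

namespace QE29

open QN43

section ev

variable {W : Type} [AddCommGroup W]

theorem DV_ext {φ ψ : DV W} (h : ∀ w, DV.ev φ w = DV.ev ψ w) : φ = ψ := by
  apply AddMonoidHom.ext
  exact h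

@[simp] theorem ev_add (φ ψ : DV W) (w : Fin 15 → W) : DV.ev (φ + ψ) w = DV.ev φ w + DV.ev ψ w := rfl
@[simp] theorem ev_zero (w : Fin 15 → W) : DV.ev (0 : DV W) w = 0 := rfl
@[simp] theorem ev_neg (φ : DV W) (w : Fin 15 → W) : DV.ev (-φ) w = -DV.ev φ w := rfl
@[simp] theorem ev_map_add (φ : DV W) (w w' : Fin 15 → W) : DV.ev φ (w + w') = DV.ev φ w + DV.ev φ w' :=
  map_add (show (Fin 15 → W) →+ ZMod 2 from φ) w w'
@[simp] theorem ev_map_zero (φ : DV W) : DV.ev φ 0 = 0 :=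
  map_zero (show (Fin 15 → W) →+ ZMod 2 from φ)

/-- precomposition with an additive map -/
def pre (g : (Fin 15 → W) →+ (Fin 15 → W)) : DV W →+ DV W where
  toFun φ := AddMonoidHom.comp (show (Fin 15 → W) →+ ZMod 2 from φ) g
  map_zero' := rfl
  map_add' _ _ := rfl

theorem pre_ev (g : (Fin 15 → W) →+ (Fin 15 → W)) (φ : DV W) (w : Fin 15 → W) :
    DV.ev (pre g φ) w = DV.ev φ (g w) := rfl

end ev

section

variable {J B E W U O : Type}
    [AddCommGroup J] [Module (ZMod 2) J] [Module (ZMod 2)ᵐᵒᵖ J] [IsCentralScalar (ZMod 2) J]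
    [Ring B] [AddCommGroup E] [Module (A0 J) E] [AddCommGroup W] [Module (A0 J) W]
    [AddCommGroup U] [Module B U] [Group O] [DistribMulAction O W] [DistribMulAction O U]
    {κ : A0 J →+* B} {inc : E →+ W} {jU : U →+ (W →+ ZMod 2)} {Φ : J ≃+ (Fin 15 → W)}
    {p : NN0 κ E →* O}

/-- the action of `GL_15(A0)` on `V` -/
def gV (g : (Mt (A0 J))ˣ) : DV W →+ DV W := pre (mact ((g⁻¹ : (Mt (A0 J))ˣ) : Mt (A0 J)))

theorem gV_ev (g : (Mt (A0 J))ˣ) (φ : DV W) (w : Fin 15 → W) :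
    DV.ev (gV g φ) w = DV.ev φ (mact ((g⁻¹ : (Mt (A0 J))ˣ) : Mt (A0 J)) w) := rfl

theorem gV_mul (g g' : (Mt (A0 J))ˣ) (φ : DV W) : gV (g * g') φ = gV g (gV g' φ) := by
  refine DV_ext fun w => ?_
  rw [gV_ev, gV_ev, gV_ev, mul_inv_rev, Units.val_mul, mact_mul_apply]

theorem gV_one (φ : DV W) : gV (1 : (Mt (A0 J))ˣ) φ = φ := by
  refine DV_ext fun w => ?_
  rw [gV_ev, inv_one, Units.val_one, mact_one_apply]

variable (jU) in
/-- `U^15 → V` -/
def jV : (Fin 15 → U) →+ DV W where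
  toFun y := (show DV W from
    { toFun := fun w => ∑ i, jU (y i) (w i)
      map_zero' := by simp
      map_add' := fun w w' => by simp [Finset.sum_add_distrib] } )
  map_zero' := by
    refine DV_ext fun w => ?_
    show ∑ i, jU ((0 : Fin 15 → U) i) (w i) = 0
    simp
  map_add' y y' := by
    refine DV_ext fun w => ?_
    show ∑ i, jU ((y + y') i) (w i) = ∑ i, jU (y i) (w i) + ∑ i, jU (y' i) (w i)
    simp [Finset.sum_add_distrib]

theorem jV_ev (y : Fin 15 → U) (w : Fin 15 → W) : DV.ev (jV jU y) w = ∑ i, jU (y i) (w i) := rfl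

theorem jV_single (y : Fin 15 → U) (i : Fin 15) (w : W) : DV.ev (jV jU y) (Pi.single i w) = jU (y i) w := by
  rw [jV_ev, Finset.sum_eq_single i]
  · rw [Pi.single_eq_same]
  · intro j _ hj
    rw [Pi.single_eq_of_ne hj, map_zero]
  · intro hi
    exact absurd (Finset.mem_univ i) hi

theorem jV_injective (h : GFacts κ inc jU Φ p) : Function.Injective (jV jU) := by
  intro y y' hy
  funext i
  apply h.jInj
  ext w
  rw [← jV_single, ← jV_single, hy]

theorem jV_gV (h : GFacts κ inc jU Φ p) (g : (Mt (A0 J))ˣ) (y : Fin 15 → U) :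
    gV g (jV jU y) = jV jU (mact (kT κ ((g⁻¹ : (Mt (A0 J))ˣ) : Mt (A0 J))) y) := by
  refine DV_ext fun w => ?_
  rw [gV_ev, jV_ev, jV_ev]
  simp only [mact_apply, map_sum, AddMonoidHom.finsetSum_apply, kT_apply, h.jA]
  exact Finset.sum_comm

section C

variable {C : Type} [Group C] {q : C →* O} [DistribMulAction C W] [DistribMulAction C U]

theorem jV_smul (h : GFacts κ inc jU Φ p) (hW : ∀ (c : C) (w : W), c • w = q c • w)
    (hU : ∀ (c : C) (u : U), c • u = q c • u) (c : C) (y : Fin 15 → U) :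
    jV jU (fun i => c • y i) = c • (jV jU y : DV W) := by
  refine DV_ext fun w => ?_
  rw [DV.smul_ev, jV_ev, jV_ev]
  refine Finset.sum_congr rfl fun i _ => ?_
  rw [hU, h.jO, Pi.smul_apply, hW, map_inv]

theorem gV_smul (h : GFacts κ inc jU Φ p) (hW : ∀ (c : C) (w : W), c • w = q c • w)
    (g : (Mt (A0 J))ˣ) (c : C) (φ : DV W) : gV g (c • φ) = c • gV g φ := by
  refine DV_ext fun w => ?_
  rw [gV_ev, DV.smul_ev, DV.smul_ev, gV_ev]
  congr 1
  funext i
  rw [Pi.smul_apply, mact_apply, mact_apply, Finset.smul_sum]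
  refine Finset.sum_congr rfl fun j _ => ?_
  rw [Pi.smul_apply, hW, hW, h.commW]

theorem ev_inc_smul (h : GFacts κ inc jU Φ p) (hW : ∀ (c : C) (w : W), c • w = q c • w)
    (c : C) (φ : DV W) (e : Fin 15 → E) :
    DV.ev (c • φ) (fun i => inc (e i)) = DV.ev φ (fun i => inc (e i)) := by
  rw [DV.smul_ev]
  congr 1
  funext i
  rw [Pi.smul_apply, hW]
  exact (h.incRange _).1 ⟨_, rfl⟩ _

theorem inc_mact (h : GFacts κ inc jU Φ p) (m : Mt (A0 J)) (e : Fin 15 → E) :
    mact m (fun i => inc (e i)) = fun i => inc (mact m e i) := by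
  funext i
  rw [mact_apply, mact_apply, map_sum]
  refine Finset.sum_congr rfl fun j _ => ?_
  rw [h.incSmul]

theorem ev_inc_gV (h : GFacts κ inc jU Φ p) (g : (Mt (A0 J))ˣ) (φ : DV W) (e : Fin 15 → E) :
    DV.ev (gV g φ) (fun i => inc (e i))
      = DV.ev φ (fun i => inc (mact ((g⁻¹ : (Mt (A0 J))ˣ) : Mt (A0 J)) e i)) := by
  rw [gV_ev, inc_mact h]

theorem ev_inc_jV (h : GFacts κ inc jU Φ p) (y : Fin 15 → U) (e : Fin 15 → E) :
    DV.ev (jV jU y) (fun i => inc (e i)) = 0 := by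
  rw [jV_ev]
  refine Finset.sum_eq_zero fun i _ => ?_
  exact (h.jRange _).1 ⟨_, rfl⟩ _

/-! ### the automorphisms -/

/-- the endomorphism `(y, g, c)` -/
def aEnd (h : GFacts κ inc jU Φ p) (hW : ∀ (c : C) (w : W), c • w = q c • w)
    (hU : ∀ (c : C) (u : U), c • u = q c • u) (y : Fin 15 → Z1 C U) (g : (Mt (A0 J))ˣ) (c : C) :
    SD (DV W) C →* SD (DV W) C where
  toFun x := ⟨gV g (c • x.v) + jV jU (fun i => (y i).1 (c * x.c * c⁻¹)), c * x.c * c⁻¹⟩
  map_one' := by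
    refine SD.ext ?_ ?_
    · show gV g (c • (0 : DV W)) + jV jU (fun i => (y i).1 (c * 1 * c⁻¹)) = 0
      have h1 : (fun i => (y i).1 (c * 1 * c⁻¹)) = (0 : Fin 15 → U) := by
        funext i
        rw [mul_one, mul_inv_cancel, Z1.one]
        rfl
      rw [smul_zero, map_zero, h1, map_zero, add_zero]
    · show c * 1 * c⁻¹ = 1
      group
  map_mul' x x' := by
    refine SD.ext ?_ ?_
    · show gV g (c • (x.v + x.c • x'.v)) + jV jU (fun i => (y i).1 (c * (x.c * x'.c) * c⁻¹))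
        = (gV g (c • x.v) + jV jU (fun i => (y i).1 (c * x.c * c⁻¹)))
          + (c * x.c * c⁻¹) • (gV g (c • x'.v) + jV jU (fun i => (y i).1 (c * x'.c * c⁻¹)))
      have h1 : (fun i => (y i).1 (c * (x.c * x'.c) * c⁻¹))
          = (fun i => (y i).1 (c * x.c * c⁻¹)) + (fun i => (c * x.c * c⁻¹) • (y i).1 (c * x'.c * c⁻¹)) := by
        funext i
        have : c * (x.c * x'.c) * c⁻¹ = (c * x.c * c⁻¹) * (c * x'.c * c⁻¹) := by group
        rw [this, Z1.mul]
        rfl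
      have h2 : (c * x.c * c⁻¹) • c • x'.v = c • x.c • x'.v := by
        rw [← mul_smul, ← mul_smul]
        congr 1
        group
      rw [h1, map_add, smul_add, smul_add, map_add, jV_smul h hW hU, ← gV_smul h hW, h2]
      abel
    · show c * (x.c * x'.c) * c⁻¹ = (c * x.c * c⁻¹) * (c * x'.c * c⁻¹)
      group

theorem aEnd_v (h : GFacts κ inc jU Φ p) (hW : ∀ (c : C) (w : W), c • w = q c • w)
    (hU : ∀ (c : C) (u : U), c • u = q c • u) (y : Fin 15 → Z1 C U) (g : (Mt (A0 J))ˣ) (c : C)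
    (x : SD (DV W) C) :
    (aEnd h hW hU y g c x).v = gV g (c • x.v) + jV jU (fun i => (y i).1 (c * x.c * c⁻¹)) := rfl

theorem aEnd_c (h : GFacts κ inc jU Φ p) (hW : ∀ (c : C) (w : W), c • w = q c • w)
    (hU : ∀ (c : C) (u : U), c • u = q c • u) (y : Fin 15 → Z1 C U) (g : (Mt (A0 J))ˣ) (c : C)
    (x : SD (DV W) C) : (aEnd h hW hU y g c x).c = c * x.c * c⁻¹ := rfl

variable [SMulCommClass C B U]

theorem aEnd_mul (h : GFacts κ inc jU Φ p) (hW : ∀ (c : C) (w : W), c • w = q c • w)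
    (hU : ∀ (c : C) (u : U), c • u = q c • u) (y y' : Fin 15 → Z1 C U) (g g' : (Mt (A0 J))ˣ) (c c' : C)
    (x : SD (DV W) C) :
    aEnd h hW hU (y + mact (kT κ ((g⁻¹ : (Mt (A0 J))ˣ) : Mt (A0 J))) (fun i => c • y' i)) (g * g') (c * c') x
      = aEnd h hW hU y g c (aEnd h hW hU y' g' c' x) := by
  refine SD.ext ?_ ?_
  · rw [aEnd_v, aEnd_v, aEnd_v, aEnd_c]
    have h1 : (fun i => ((y + mact (kT κ ((g⁻¹ : (Mt (A0 J))ˣ) : Mt (A0 J))) (fun i => c • y' i)) i).1
          (c * c' * x.c * (c * c')⁻¹))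
        = (fun i => (y i).1 (c * (c' * x.c * c'⁻¹) * c⁻¹))
          + mact (kT κ ((g⁻¹ : (Mt (A0 J))ˣ) : Mt (A0 J))) (fun i => c • (y' i).1 (c' * x.c * c'⁻¹)) := by
      funext i
      have e1 : c * c' * x.c * (c * c')⁻¹ = c * (c' * x.c * c'⁻¹) * c⁻¹ := by group
      rw [e1]
      show (y i).1 (c * (c' * x.c * c'⁻¹) * c⁻¹)
        + (mact (kT κ ((g⁻¹ : (Mt (A0 J))ˣ) : Mt (A0 J))) (fun i => c • y' i) i).1 (c * (c' * x.c * c'⁻¹) * c⁻¹)
        = (y i).1 (c * (c' * x.c * c'⁻¹) * c⁻¹)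
          + mact (kT κ ((g⁻¹ : (Mt (A0 J))ˣ) : Mt (A0 J))) (fun i => c • (y' i).1 (c' * x.c * c'⁻¹)) i
      congr 1
      rw [mact_apply, mact_apply, AddSubgroup.val_finsetSum, Finset.sum_apply]
      refine Finset.sum_congr rfl fun j _ => ?_
      rw [Z1.bsmul_apply, Z1.smul_apply]
      congr 3
      group
    rw [h1, map_add, ← jV_gV h, jV_smul h hW hU, gV_mul, mul_smul, smul_add, map_add, gV_smul h hW g' c]
    abel
  · rw [aEnd_c, aEnd_c, aEnd_c]
    group

theorem aEnd_one (h : GFacts κ inc jU Φ p) (hW : ∀ (c : C) (w : W), c • w = q c • w)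
    (hU : ∀ (c : C) (u : U), c • u = q c • u) (x : SD (DV W) C) :
    aEnd h hW hU 0 1 1 x = x := by
  refine SD.ext ?_ ?_
  · rw [aEnd_v, gV_one, one_smul]
    have h1 : (fun i => ((0 : Fin 15 → Z1 C U) i).1 (1 * x.c * 1⁻¹)) = (0 : Fin 15 → U) := rfl
    rw [h1, map_zero, add_zero]
  · rw [aEnd_c]
    group

/-- the endomorphism attached to an element of `GG` -/
noncomputable def gEnd (h : GFacts κ inc jU Φ p) (hW : ∀ (c : C) (w : W), c • w = q c • w)
    (hU : ∀ (c : C) (u : U), c • u = q c • u) (x : GG (G1s κ E) C (Z1 C U)) :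
    SD (DV W) C →* SD (DV W) C :=
  aEnd h hW hU x.v.2 ((sigEquiv κ E h.kapInj).symm x.c.1) x.c.2

theorem sE_snd (h : GFacts κ inc jU Φ p) (n : G1s κ E) :
    (n.1.1.2 : Mt B) = kT κ (((((sigEquiv κ E h.kapInj).symm n)⁻¹ : (Mt (A0 J))ˣ)) : Mt (A0 J)) := by
  obtain ⟨g, rfl⟩ := (sigEquiv κ E h.kapInj).surjective n
  rw [MulEquiv.symm_apply_apply]
  rfl

theorem sE_fst (h : GFacts κ inc jU Φ p) (n : G1s κ E) (e : Fin 15 → E) :
    (n.1.1.1 : AddMonoid.End (Fin 15 → E)) e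
      = mact (((sigEquiv κ E h.kapInj).symm n : (Mt (A0 J))ˣ) : Mt (A0 J)) e := by
  obtain ⟨g, rfl⟩ := (sigEquiv κ E h.kapInj).surjective n
  rw [MulEquiv.symm_apply_apply]
  rfl

theorem gEnd_mul (h : GFacts κ inc jU Φ p) (hW : ∀ (c : C) (w : W), c • w = q c • w)
    (hU : ∀ (c : C) (u : U), c • u = q c • u) (x x' : GG (G1s κ E) C (Z1 C U)) (z : SD (DV W) C) :
    gEnd h hW hU (x * x') z = gEnd h hW hU x (gEnd h hW hU x' z) := by
  unfold gEnd
  rw [← aEnd_mul, SD.mul_c, Prod.fst_mul, Prod.snd_mul, map_mul, SD.mul_v]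
  have h1 : (x.v + x.c • x'.v).2
      = x.v.2 + mact (kT κ (((((sigEquiv κ E h.kapInj).symm x.c.1)⁻¹ : (Mt (A0 J))ˣ)) : Mt (A0 J)))
        (fun i => x.c.2 • x'.v.2 i) := by
    rw [← sE_snd h]
    rfl
  rw [h1]

theorem gEnd_one (h : GFacts κ inc jU Φ p) (hW : ∀ (c : C) (w : W), c • w = q c • w)
    (hU : ∀ (c : C) (u : U), c • u = q c • u) (z : SD (DV W) C) :
    gEnd h hW hU (1 : GG (G1s κ E) C (Z1 C U)) z = z := by
  unfold gEnd
  have h1 : (sigEquiv κ E h.kapInj).symm (1 : GG (G1s κ E) C (Z1 C U)).c.1 = 1 := by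
    rw [SD.one_c, Prod.fst_one, map_one]
  rw [h1]
  exact aEnd_one h hW hU z

/-- the automorphism attached to an element of `GG` -/
noncomputable def gAut (h : GFacts κ inc jU Φ p) (hW : ∀ (c : C) (w : W), c • w = q c • w)
    (hU : ∀ (c : C) (u : U), c • u = q c • u) :
    GG (G1s κ E) C (Z1 C U) →* MulAut (SD (DV W) C) where
  toFun x :=
    { toFun := gEnd h hW hU x
      invFun := gEnd h hW hU x⁻¹
      left_inv := fun z => by rw [← gEnd_mul, inv_mul_cancel, gEnd_one]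
      right_inv := fun z => by rw [← gEnd_mul, mul_inv_cancel, gEnd_one]
      map_mul' := fun z z' => map_mul (gEnd h hW hU x) z z' }
  map_one' := by
    ext1 z
    exact gEnd_one h hW hU z
  map_mul' x x' := by
    ext1 z
    exact gEnd_mul h hW hU x x' z

theorem gAut_apply (h : GFacts κ inc jU Φ p) (hW : ∀ (c : C) (w : W), c • w = q c • w)
    (hU : ∀ (c : C) (u : U), c • u = q c • u) (x : GG (G1s κ E) C (Z1 C U)) (z : SD (DV W) C) :
    gAut h hW hU x z = gEnd h hW hU x z := rfl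

theorem gAut_inv_apply (h : GFacts κ inc jU Φ p) (hW : ∀ (c : C) (w : W), c • w = q c • w)
    (hU : ∀ (c : C) (u : U), c • u = q c • u) (x : GG (G1s κ E) C (Z1 C U)) (z : SD (DV W) C) :
    (gAut h hW hU x)⁻¹ z = gEnd h hW hU x⁻¹ z := rfl

/-! ### the characters -/

/-- the character attached to `e` -/
def chi (h : GFacts κ inc jU Φ p) (hW : ∀ (c : C) (w : W), c • w = q c • w) (e : Fin 15 → E) :
    X (SD (DV W) C) where
  toFun z := Multiplicative.ofAdd (DV.ev z.v (fun i => inc (e i)))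
  map_one' := rfl
  map_mul' z z' := by
    rw [SD.mul_v, ev_add, ev_inc_smul h hW, ofAdd_add]

theorem chi_apply (h : GFacts κ inc jU Φ p) (hW : ∀ (c : C) (w : W), c • w = q c • w) (e : Fin 15 → E)
    (z : SD (DV W) C) : chi h hW e z = Multiplicative.ofAdd (DV.ev z.v (fun i => inc (e i))) := rfl

theorem chi_add (h : GFacts κ inc jU Φ p) (hW : ∀ (c : C) (w : W), c • w = q c • w) (e e' : Fin 15 → E) :
    chi h hW (e + e') = chi h hW e * chi h hW e' := by
  ext1 z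
  rw [MonoidHom.mul_apply, chi_apply, chi_apply, chi_apply, ← ofAdd_add, ← ev_map_add]
  congr 2
  funext i
  exact map_add inc _ _

theorem chi_gAut (h : GFacts κ inc jU Φ p) (hW : ∀ (c : C) (w : W), c • w = q c • w)
    (hU : ∀ (c : C) (u : U), c • u = q c • u) (x : GG (G1s κ E) C (Z1 C U)) (e : Fin 15 → E) :
    act _ (gAut h hW hU x) (chi h hW e) = chi h hW ((x.c.1.1.1.1 : AddMonoid.End (Fin 15 → E)) e) := by
  ext1 z
  rw [act_apply, gAut_inv_apply, chi_apply, chi_apply]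
  congr 1
  unfold gEnd
  rw [aEnd_v, ev_add, ev_inc_jV h, add_zero, ev_inc_gV h, ev_inc_smul h hW]
  congr 1
  funext i
  have h1 : ((((sigEquiv κ E h.kapInj).symm (x⁻¹).c.1)⁻¹ : (Mt (A0 J))ˣ) : Mt (A0 J))
      = (((sigEquiv κ E h.kapInj).symm x.c.1 : (Mt (A0 J))ˣ) : Mt (A0 J)) := by
    rw [SD.inv_c, Prod.fst_inv, map_inv, inv_inv]
  rw [h1, ← sE_fst h]

/-- the homomorphism `GG → F(V ⋊ C)` -/
noncomputable def theta (h : GFacts κ inc jU Φ p) (hW : ∀ (c : C) (w : W), c • w = q c • w)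
    (hU : ∀ (c : C) (u : U), c • u = q c • u) :
    GG (G1s κ E) C (Z1 C U) →* F (SD (DV W) C) where
  toFun x := ⟨chi h hW x.v.1, gAut h hW hU x⟩
  map_one' := by
    refine SemidirectProduct.ext ?_ ?_
    · ext1 z
      show Multiplicative.ofAdd (DV.ev z.v (fun i => inc ((0 : Fin 15 → E) i))) = 1
      have : (fun i => inc ((0 : Fin 15 → E) i)) = (0 : Fin 15 → W) := by
        funext i
        exact map_zero inc
      rw [this, ev_map_zero]
      rfl
    · exact map_one _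
  map_mul' x x' := by
    refine SemidirectProduct.ext ?_ ?_
    · show chi h hW (x * x').v.1 = chi h hW x.v.1 * act _ (gAut h hW hU x) (chi h hW x'.v.1)
      rw [chi_gAut, ← chi_add]
      rfl
    · exact map_mul _ _ _

end C

end

end QE29
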