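import Mathlib
import Pool.Agent.Helper29.QE.Even
import Pool.Agent.Helper46.QE.Lin

/-!
# `F(V ⋊ C) = (E^15 × Z¹(C,U)^15) ⋊ (GL_15(A0) × C)` (thread TH-F, `S00834`)
-/

set_option autoImplicit false
set_option linter.unusedSectionVars false

namespace QE29

open QN43

section

variable {J B E W U O : Type}
    [AddCommGroup J] [Module (ZMod 2) J] [Module (ZMod 2)ᵐᵒᵖ J] [IsCentralScalar (ZMod 2) J]
    [Ring B] [AddCommGroup E] [Module (A0 J) E] [AddCommGroup W] [Module (A0 J) W]
    [AddCommGroup U] [Module B U] [Group O] [DistribMulAction O W] [DistribMulAction O U]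
    {κ : A0 J →+* B} {inc : E →+ W} {jU : U →+ (W →+ ZMod 2)} {Φ : J ≃+ (Fin 15 → W)}
    {p : NN0 κ E →* O}

/-- `W` has exponent two -/
theorem two_W (_h : GFacts κ inc jU Φ p) (w : W) : w + w = 0 := by
  have h1 : ((1 : A0 J) + 1) = 0 := by
    refine TrivSqZeroExt.ext ?_ ?_
    · show (1 : ZMod 2) + 1 = 0
      decide
    · show (0 : J) + 0 = 0
      simp
  calc w + w = ((1 : A0 J) + 1) • w := by rw [add_smul, one_smul]
    _ = 0 := by rw [h1, zero_smul]

theorem two_W15 (h : GFacts κ inc jU Φ p) (w : Fin 15 → W) : w + w = 0 := by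
  funext i
  exact two_W h (w i)

/-- functionals in `V` separate points of `W^15` -/
theorem sepV (h0 : GFacts κ inc jU Φ p) {w w' : Fin 15 → W} (h : ∀ φ : DV W, DV.ev φ w = DV.ev φ w') : w = w' :=
  QU58.sep (two_W15 h0) h

theorem mact_single (m : Mt (A0 J)) (i j : Fin 15) (w : W) :
    mact m (Pi.single j w) i = m i j • w := by
  rw [mact_apply, Finset.sum_eq_single j]
  · rw [Pi.single_eq_same]
  · intro l _ hl
    rw [Pi.single_eq_of_ne hl, smul_zero]
  · intro hj
    exact absurd (Finset.mem_univ j) hj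

theorem mact_faith (h : GFacts κ inc jU Φ p) {m m' : Mt (A0 J)}
    (hm : ∀ w : Fin 15 → W, mact m w = mact m' w) : m = m' := by
  funext i j
  rw [← sub_eq_zero]
  apply h.faithW
  intro w
  rw [sub_smul, sub_eq_zero, ← mact_single, ← mact_single, hm]

section C

variable {C : Type} [Group C] {q : C →* O} [DistribMulAction C W] [DistribMulAction C U]

/-! ### the linear half -/

/-- additive maps of `V` commuting with `C` are transposes of matrices over `A0` -/
theorem endV (h : GFacts κ inc jU Φ p) (hW : ∀ (c : C) (w : W), c • w = q c • w)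
    (hq : Function.Surjective q) (a : DV W →+ DV W) (ha : ∀ (c : C) (φ : DV W), a (c • φ) = c • a φ) :
    ∃ m : Mt (A0 J), ∀ (φ : DV W) (w : Fin 15 → W), DV.ev (a φ) w = DV.ev φ (mact m w) :=
  QE46.endV q h hq hW a ha

/-- `C`-invariant functionals on `V` are evaluations at `E^15` -/
theorem invV (h : GFacts κ inc jU Φ p) (hW : ∀ (c : C) (w : W), c • w = q c • w)
    (hq : Function.Surjective q) (l : DV W →+ ZMod 2) (hl : ∀ (c : C) (φ : DV W), l (c • φ) = l φ) :
    ∃ e : Fin 15 → E, ∀ φ : DV W, l φ = DV.ev φ (fun i => inc (e i)) := by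
  obtain ⟨e, he⟩ := QE46.invV q h hq hW l hl
  exact ⟨e, fun φ => by rw [he]; rfl⟩

/-- cocycles with values in `V` have values in `U^15` -/
theorem cocV (h : GFacts κ inc jU Φ p) (hW : ∀ (c : C) (w : W), c • w = q c • w)
    (hU : ∀ (c : C) (u : U), c • u = q c • u) (hperf : commutator C = ⊤) (f : C → DV W)
    (hf : ∀ x y, f (x * y) = f x + x • f y) :
    ∃ y : Fin 15 → Z1 C U, ∀ x, f x = jV jU (fun i => (y i).1 x) := by
  obtain ⟨y, hy⟩ := QE46.joinZ_surjective q h hperf hW hU ⟨f, hf⟩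
  refine ⟨y, fun x => ?_⟩
  have h1 := congrFun (congrArg Subtype.val hy) x
  exact h1.symm

/-! ### the group half -/

theorem trivV (h : GFacts κ inc jU Φ p) (hW : ∀ (c : C) (w : W), c • w = q c • w) (c : C)
    (hc : c ^ 151 = 1) (φ : DV W) : c • φ = φ := by
  refine DV_ext fun w => ?_
  rw [DV.smul_ev]
  congr 1
  funext i
  rw [Pi.smul_apply, hW, map_inv, q151 h q c hc, inv_one, one_smul]

/-- `V` is characteristic in `V ⋊ C` -/
theorem charV (h : GFacts κ inc jU Φ p) (hW : ∀ (c : C) (w : W), c • w = q c • w)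
    (hC : Even U q) (α : MulAut (SD (DV W) C)) (v : DV W) : (α (SD.inl v)).c = 1 := by
  apply hC.piCent
  intro x hx
  have h1 : (SD.inr x : SD (DV W) C) ^ 151 = 1 := by rw [← map_pow, hx, map_one]
  set y : SD (DV W) C := α.symm (SD.inr x) with hy
  have h2 : y ^ 151 = 1 := by rw [hy, ← map_pow, h1, map_one]
  have h3 : y.c ^ 151 = 1 := by
    have := congrArg (SD.pr (V := DV W) (C := C)) h2
    rw [map_pow, map_one] at this
    exact this
  have h4 : (SD.inl v : SD (DV W) C) * y = y * SD.inl v := by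
    refine SD.ext ?_ ?_
    · rw [SD.mul_v, SD.mul_v, SD.inl_c, SD.inl_v, one_smul, trivV h hW y.c h3, add_comm]
    · rw [SD.mul_c, SD.mul_c, SD.inl_c, one_mul, mul_one]
  have h5 := congrArg α h4
  rw [map_mul, map_mul] at h5
  have h6 : α y = SD.inr x := α.apply_symm_apply _
  rw [h6] at h5
  have h7 := congrArg SD.c h5
  exact h7

/-- `α` on `V` -/
def onV (h : GFacts κ inc jU Φ p) (hW : ∀ (c : C) (w : W), c • w = q c • w)
    (hC : Even U q) (α : MulAut (SD (DV W) C)) : DV W →+ DV W where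
  toFun v := (α (SD.inl v)).v
  map_zero' := by
    have : (SD.inl 0 : SD (DV W) C) = 1 := rfl
    rw [this, map_one]
    rfl
  map_add' v w := by
    rw [← SD.inl_mul_inl, map_mul, SD.mul_v, charV h hW hC, one_smul]

theorem onV_spec (h : GFacts κ inc jU Φ p) (hW : ∀ (c : C) (w : W), c • w = q c • w)
    (hC : Even U q) (α : MulAut (SD (DV W) C)) (v : DV W) :
    α (SD.inl v) = SD.inl (onV h hW hC α v) := by
  refine SD.ext rfl ?_
  exact charV h hW hC α v

/-- `α` on `C` -/
def onC (α : MulAut (SD (DV W) C)) : C →* C := (SD.pr.comp α.toMonoidHom).comp SD.inr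

theorem onC_apply (α : MulAut (SD (DV W) C)) (x : C) : onC α x = (α (SD.inr x)).c := rfl

theorem spec (h : GFacts κ inc jU Φ p) (hW : ∀ (c : C) (w : W), c • w = q c • w)
    (hC : Even U q) (α : MulAut (SD (DV W) C)) (z : SD (DV W) C) :
    α z = ⟨onV h hW hC α z.v + (α (SD.inr z.c)).v, onC α z.c⟩ := by
  conv_lhs => rw [SD.eq_mul z, map_mul, onV_spec h hW hC]
  refine SD.ext ?_ ?_
  · rw [SD.mul_v, SD.inl_c, one_smul, SD.inl_v]
  · rw [SD.mul_c, SD.inl_c, one_mul]
    rfl

theorem onV_smul (h : GFacts κ inc jU Φ p) (hW : ∀ (c : C) (w : W), c • w = q c • w)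
    (hC : Even U q) (α : MulAut (SD (DV W) C)) (x : C) (v : DV W) :
    onV h hW hC α (x • v) = onC α x • onV h hW hC α v := by
  have h1 := congrArg α (SD.conj_inl x v)
  rw [map_mul, map_mul, map_inv, onV_spec h hW hC, onV_spec h hW hC] at h1
  have h2 := congrArg SD.v h1
  rw [SD.inl_v, SD.mul_v, SD.mul_v, SD.inv_v, SD.mul_c, SD.inl_c, mul_one, SD.inl_v, smul_neg,
    smul_inv_smul, ← onC_apply] at h2
  rw [← h2]
  abel

theorem onC_inv (h : GFacts κ inc jU Φ p) (hW : ∀ (c : C) (w : W), c • w = q c • w)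
    (hC : Even U q) (α : MulAut (SD (DV W) C)) (x : C) : onC α⁻¹ (onC α x) = x := by
  have h1 : (α⁻¹ : MulAut (SD (DV W) C)) (α (SD.inr x)) = SD.inr x := α.symm_apply_apply _
  rw [spec h hW hC α⁻¹] at h1
  have h2 := congrArg SD.c h1
  exact h2

theorem onV_inv (h : GFacts κ inc jU Φ p) (hW : ∀ (c : C) (w : W), c • w = q c • w)
    (hC : Even U q) (α : MulAut (SD (DV W) C)) (v : DV W) :
    onV h hW hC α⁻¹ (onV h hW hC α v) = v := by
  have h1 : (α⁻¹ : MulAut (SD (DV W) C)) (α (SD.inl v)) = SD.inl v := α.symm_apply_apply _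
  rw [onV_spec h hW hC α, onV_spec h hW hC α⁻¹] at h1
  exact congrArg SD.v h1

/-- `α` on `C` as an automorphism -/
def onCe (h : GFacts κ inc jU Φ p) (hW : ∀ (c : C) (w : W), c • w = q c • w)
    (hC : Even U q) (α : MulAut (SD (DV W) C)) : C ≃* C where
  toFun := onC α
  invFun := onC α⁻¹
  left_inv x := onC_inv h hW hC α x
  right_inv x := by
    have := onC_inv h hW hC α⁻¹ x
    rwa [inv_inv] at this
  map_mul' := map_mul (onC α)

/-- `α` is inner on `C` -/
theorem innerC (h : GFacts κ inc jU Φ p) (hW : ∀ (c : C) (w : W), c • w = q c • w)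
    (hU : ∀ (c : C) (u : U), c • u = q c • u)
    (hC : Even U q) (α : MulAut (SD (DV W) C)) : ∃ g : C, ∀ x, onC α x = g * x * g⁻¹ := by
  refine hC.inner (onCe h hW hC α) ?_
  intro c hc f
  let F : C → DV W := fun x => onV h hW hC α⁻¹ (jV jU (fun _ => f.1 (onC α x)))
  have hF : ∀ x y, F (x * y) = F x + x • F y := by
    intro x y
    show onV h hW hC α⁻¹ (jV jU (fun _ => f.1 (onC α (x * y)))) = _
    have h1 : (fun _ : Fin 15 => f.1 (onC α (x * y)))
        = (fun _ => f.1 (onC α x)) + (fun _ => onC α x • f.1 (onC α y)) := by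
      funext i
      rw [map_mul, Z1.mul]
      rfl
    rw [h1, map_add, map_add, jV_smul h hW hU, onV_smul, onC_inv h hW hC]
  obtain ⟨y, hy⟩ := cocV h hW hU hC.perf F hF
  have h2 : F c = 0 := by
    rw [hy]
    have : (fun i => (y i).1 c) = (0 : Fin 15 → U) := by
      funext i
      exact hc (y i)
    rw [this, map_zero]
  have h3 : jV jU (fun _ : Fin 15 => f.1 (onC α c)) = 0 := by
    have h4 := congrArg (onV h hW hC α) h2
    rw [map_zero] at h4
    have h5 := onV_inv h hW hC α⁻¹ (jV jU (fun _ : Fin 15 => f.1 (onC α c)))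
    rw [inv_inv] at h5
    rw [← h5]
    exact h4
  have h6 : (fun _ : Fin 15 => f.1 (onC α c)) = 0 := by
    apply jV_injective h
    rw [h3, map_zero]
  exact congrFun h6 0

/-- **(E1)** `V ⋊ C` is centreless. -/
theorem even_center' (h : GFacts κ inc jU Φ p) (hW : ∀ (c : C) (w : W), c • w = q c • w)
    (hC : Even U q) : Subgroup.center (SD (DV W) C) = ⊥ := by
  rw [eq_bot_iff]
  intro z hz
  rw [Subgroup.mem_bot]
  rw [Subgroup.mem_center_iff] at hz
  have h1 : z.c = 1 := by
    apply hC.piCent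
    intro x _
    exact (congrArg SD.c (hz (SD.inr x))).symm
  have h2 : z.v = 0 := by
    refine DV_ext fun w => ?_
    rw [ev_zero]
    have h3 : ∀ x : C, x • z.v = z.v := by
      intro x
      have h4 := congrArg SD.v (hz (SD.inr x))
      rw [SD.mul_v, SD.mul_v, SD.inr_v, SD.inr_c, smul_zero, zero_add, add_zero] at h4
      exact h4
    have h5 : ∀ (o : O) (u : Fin 15 → W), DV.ev z.v (o • u) = DV.ev z.v u := by
      intro o u
      obtain ⟨x, rfl⟩ := hC.surj o
      have h6 : DV.ev (x⁻¹ • z.v) u = DV.ev z.v u := by rw [h3]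
      rw [DV.smul_ev, inv_inv] at h6
      rw [← h6]
      congr 1
      funext i
      rw [Pi.smul_apply, Pi.smul_apply, hW]
    have h7 : ∀ (i : Fin 15) (u : W), DV.ev z.v (Pi.single i u) = 0 := by
      intro i u
      have hu : u ∈ AddSubgroup.closure {w : W | ∃ (o : O) (u : W), w = o • u - u} := by
        rw [h.coinv]
        exact AddSubgroup.mem_top u
      refine AddSubgroup.closure_induction
        (p := fun u _ => DV.ev z.v (Pi.single i u) = 0) ?_ ?_ ?_ ?_ hu
      · rintro _ ⟨o, u, rfl⟩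
        have h8 := h5 o (Pi.single i u)
        rw [← Pi.single_smul] at h8
        have h9 : (Pi.single i (o • u - u) : Fin 15 → W) = Pi.single i (o • u) + Pi.single i u := by
          rw [← Pi.single_add]
          congr 1
          rw [sub_eq_iff_eq_add, add_assoc, two_W h, add_zero]
        rw [h9, ev_map_add, h8]
        exact CharTwo.add_self_eq_zero _
      · rw [Pi.single_zero, ev_map_zero]
      · intro a b _ _ ha hb
        rw [Pi.single_add, ev_map_add, ha, hb, add_zero]
      · intro a _ ha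
        rw [Pi.single_neg]
        have h10 : DV.ev z.v (-Pi.single i a) = -DV.ev z.v (Pi.single i a) :=
          map_neg (show (Fin 15 → W) →+ ZMod 2 from z.v) _
        rw [h10, ha, neg_zero]
    have h11 : w = ∑ i, Pi.single i (w i) := (Finset.univ_sum_single w).symm
    rw [h11]
    have h12 : DV.ev z.v (∑ i, Pi.single i (w i)) = ∑ i, DV.ev z.v (Pi.single i (w i)) :=
      map_sum (show (Fin 15 → W) →+ ZMod 2 from z.v) _ _
    rw [h12]
    exact Finset.sum_eq_zero fun i _ => h7 i (w i)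
  exact SD.ext h2 h1

variable [SMulCommClass C B U]

theorem theta_inj (h : GFacts κ inc jU Φ p) (hW : ∀ (c : C) (w : W), c • w = q c • w)
    (hU : ∀ (c : C) (u : U), c • u = q c • u) (hC : Even U q) :
    Function.Injective (theta h hW hU) := by
  rw [injective_iff_map_eq_one]
  intro x hx
  have h1 : chi h hW x.v.1 = 1 := congrArg SemidirectProduct.left hx
  have h2 : gAut h hW hU x = 1 := congrArg SemidirectProduct.right hx
  have h3 : ∀ z : SD (DV W) C, gEnd h hW hU x z = z := by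
    intro z
    rw [← gAut_apply, h2]
    rfl
  have hc : x.c.2 = 1 := by
    apply hC.piCent
    intro t _
    have h4 : x.c.2 * t * x.c.2⁻¹ = t := congrArg SD.c (h3 (SD.inr t))
    rw [mul_inv_eq_iff_eq_mul] at h4
    exact h4
  have hy : x.v.2 = 0 := by
    funext i
    refine z1_ext fun t => ?_
    have h4 := congrArg SD.v (h3 (SD.inr t))
    unfold gEnd at h4
    rw [aEnd_v, SD.inr_v, smul_zero, map_zero, zero_add, hc, SD.inr_c, one_mul, inv_one, mul_one] at h4
    have h5 : (fun i => (x.v.2 i).1 t) = 0 := by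
      apply jV_injective h
      rw [h4, map_zero]
    exact congrFun h5 i
  have hg : (sigEquiv κ E h.kapInj).symm x.c.1 = 1 := by
    rw [← inv_eq_one]
    apply Units.ext
    apply mact_faith h
    intro w
    apply sepV h
    intro φ
    have h4 := congrArg SD.v (h3 (SD.inl φ))
    unfold gEnd at h4
    rw [aEnd_v, SD.inl_v, hc, one_smul, hy] at h4
    have h5 : (fun i => ((0 : Fin 15 → Z1 C U) i).1 (1 * (SD.inl φ : SD (DV W) C).c * 1⁻¹)) = (0 : Fin 15 → U) := rfl
    rw [h5, map_zero, add_zero] at h4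
    rw [← gV_ev, h4, Units.val_one, mact_one_apply]
  have hn : x.c.1 = 1 := by
    rw [← (sigEquiv κ E h.kapInj).apply_symm_apply x.c.1, hg, map_one]
  have he : x.v.1 = 0 := by
    have h4 : (fun i => inc (x.v.1 i)) = (0 : Fin 15 → W) := by
      apply sepV h
      intro φ
      have h5 := DFunLike.congr_fun h1 (SD.inl φ)
      rw [ev_map_zero]
      exact h5
    funext i
    apply h.incInj
    rw [congrFun h4 i]
    exact (map_zero inc).symm
  exact SD.ext (Prod.ext he hy) (Prod.ext hn hc)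

theorem chi_surj (h : GFacts κ inc jU Φ p) (hW : ∀ (c : C) (w : W), c • w = q c • w)
    (hC : Even U q) (χ : X (SD (DV W) C)) : ∃ e, chi h hW e = χ := by
  have hperf : ∀ c : C, χ (SD.inr c) = 1 := by
    intro c
    have h1 : c ∈ commutator C := by
      rw [hC.perf]
      exact Subgroup.mem_top c
    exact Abelianization.commutator_subset_ker (χ.comp SD.inr) h1
  let l : DV W →+ ZMod 2 :=
    { toFun := fun v => Multiplicative.toAdd (χ (SD.inl v))
      map_zero' := by
        have : (SD.inl 0 : SD (DV W) C) = 1 := rfl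
        rw [this, map_one]
        rfl
      map_add' := fun v w => by
        rw [← SD.inl_mul_inl, map_mul, toAdd_mul] }
  have hl : ∀ (c : C) (φ : DV W), l (c • φ) = l φ := by
    intro c φ
    show Multiplicative.toAdd (χ (SD.inl (c • φ))) = Multiplicative.toAdd (χ (SD.inl φ))
    rw [← SD.conj_inl, map_mul χ, map_mul χ, map_inv χ, mul_comm (χ (SD.inr c)), mul_inv_cancel_right]
  obtain ⟨e, he⟩ := invV h hW hC.surj l hl
  refine ⟨e, ?_⟩
  ext1 z
  rw [chi_apply, ← he]
  conv_rhs => rw [SD.eq_mul z, map_mul, hperf, mul_one]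
  rfl

theorem aut_surj (h : GFacts κ inc jU Φ p) (hW : ∀ (c : C) (w : W), c • w = q c • w)
    (hU : ∀ (c : C) (u : U), c • u = q c • u) (hC : Even U q) (α : MulAut (SD (DV W) C)) :
    ∃ (y : Fin 15 → Z1 C U) (g : (Mt (A0 J))ˣ) (c : C), ∀ z, α z = aEnd h hW hU y g c z := by
  obtain ⟨g0, hg0⟩ := innerC h hW hU hC α
  -- the map on `V`
  let a : DV W →+ DV W := (onV h hW hC α).comp (DistribSMul.toAddMonoidHom (DV W) g0⁻¹)
  have ha : ∀ (c : C) (φ : DV W), a (c • φ) = c • a φ := by
    intro c φ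
    show onV h hW hC α (g0⁻¹ • c • φ) = c • onV h hW hC α (g0⁻¹ • φ)
    have h1 : g0⁻¹ • c • φ = (g0⁻¹ * c * g0) • g0⁻¹ • φ := by
      rw [← mul_smul, ← mul_smul]
      congr 1
      group
    rw [h1, onV_smul, hg0]
    congr 1
    group
  let a' : DV W →+ DV W := (DistribSMul.toAddMonoidHom (DV W) g0).comp (onV h hW hC α⁻¹)
  have haa' : ∀ φ, a (a' φ) = φ := by
    intro φ
    show onV h hW hC α (g0⁻¹ • g0 • onV h hW hC α⁻¹ φ) = φ
    rw [inv_smul_smul]
    have := onV_inv h hW hC α⁻¹ φ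
    rwa [inv_inv] at this
  have ha'a : ∀ φ, a' (a φ) = φ := by
    intro φ
    show g0 • onV h hW hC α⁻¹ (onV h hW hC α (g0⁻¹ • φ)) = φ
    rw [onV_inv, smul_inv_smul]
  have ha' : ∀ (c : C) (φ : DV W), a' (c • φ) = c • a' φ := by
    intro c φ
    have h1 : a (c • a' φ) = c • φ := by rw [ha, haa']
    rw [← h1, ha'a]
  obtain ⟨m, hm⟩ := endV h hW hC.surj a ha
  obtain ⟨m', hm'⟩ := endV h hW hC.surj a' ha'
  have hmm' : m * m' = 1 := by
    apply mact_faith h
    intro w
    rw [mact_one_apply, mact_mul_apply]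
    apply sepV h
    intro φ
    rw [← hm, ← hm', ha'a]
  have hm'm : m' * m = 1 := by
    apply mact_faith h
    intro w
    rw [mact_one_apply, mact_mul_apply]
    apply sepV h
    intro φ
    rw [← hm', ← hm, haa']
  let g : (Mt (A0 J))ˣ := ⟨m', m, hm'm, hmm'⟩
  have hgV : ∀ φ : DV W, gV g φ = a φ := by
    intro φ
    refine DV_ext fun w => ?_
    rw [gV_ev, hm]
    rfl
  -- the cocycle
  let F : C → DV W := fun x => (α (SD.inr (g0⁻¹ * x * g0))).v
  have hF : ∀ x y, F (x * y) = F x + x • F y := by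
    intro x y
    show (α (SD.inr (g0⁻¹ * (x * y) * g0))).v
      = (α (SD.inr (g0⁻¹ * x * g0))).v + x • (α (SD.inr (g0⁻¹ * y * g0))).v
    have h1 : g0⁻¹ * (x * y) * g0 = (g0⁻¹ * x * g0) * (g0⁻¹ * y * g0) := by group
    have h2 : (α (SD.inr (g0⁻¹ * x * g0))).c = x := by
      rw [← onC_apply, hg0]
      group
    rw [h1, map_mul SD.inr, map_mul, SD.mul_v, h2]
  obtain ⟨y, hy⟩ := cocV h hW hU hC.perf F hF
  refine ⟨y, g, g0, fun z => ?_⟩
  rw [spec h hW hC]
  refine SD.ext ?_ ?_
  · rw [aEnd_v, hgV, ← hy]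
    show onV h hW hC α z.v + (α (SD.inr z.c)).v
      = onV h hW hC α (g0⁻¹ • g0 • z.v) + (α (SD.inr (g0⁻¹ * (g0 * z.c * g0⁻¹) * g0))).v
    rw [inv_smul_smul]
    congr 4
    group
  · rw [aEnd_c]
    exact hg0 z.c

theorem theta_surj (h : GFacts κ inc jU Φ p) (hW : ∀ (c : C) (w : W), c • w = q c • w)
    (hU : ∀ (c : C) (u : U), c • u = q c • u) (hC : Even U q) :
    Function.Surjective (theta h hW hU) := by
  rintro ⟨χ, α⟩
  obtain ⟨e, he⟩ := chi_surj h hW hC χ
  obtain ⟨y, g, c, hα⟩ := aut_surj h hW hU hC α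
  refine ⟨⟨(e, y), (sigEquiv κ E h.kapInj g, c)⟩, ?_⟩
  refine SemidirectProduct.ext ?_ ?_
  · exact he
  · ext1 z
    show gEnd h hW hU ⟨(e, y), (sigEquiv κ E h.kapInj g, c)⟩ z = α z
    rw [hα]
    unfold gEnd
    show aEnd h hW hU y ((sigEquiv κ E h.kapInj).symm (sigEquiv κ E h.kapInj g)) c z = _
    rw [MulEquiv.symm_apply_apply]

end C

/-- (E1) `V ⋊ C` is centreless. -/
theorem even_center (h : GFacts κ inc jU Φ p) {C : Type} [Group C] (q : C →* O)
    [DistribMulAction C W] [DistribMulAction C U] (hW : ∀ (c : C) (w : W), c • w = q c • w)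
    (_hU : ∀ (c : C) (u : U), c • u = q c • u) (hC : Even U q) :
    Subgroup.center (SD (DV W) C) = ⊥ := even_center' h hW hC

/-- (E3) `F(V ⋊ C) = N'` for the stage `(C, Z1 C U)`. -/
theorem F_even (h : GFacts κ inc jU Φ p) {C : Type} [Group C] (q : C →* O)
    [DistribMulAction C W] [DistribMulAction C U] [SMulCommClass C B U]
    (hW : ∀ (c : C) (w : W), c • w = q c • w)
    (hU : ∀ (c : C) (u : U), c • u = q c • u) (hC : Even U q) :
    Nonempty (F (SD (DV W) C) ≃* GG (G1s κ E) C (Z1 C U)) :=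
  ⟨(MulEquiv.ofBijective (theta h hW hU) ⟨theta_inj h hW hU hC, theta_surj h hW hU hC⟩).symm⟩

end

end QE29
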