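import Mathlib

/-!
PROJECT AUT (MP_19fde8_al, S00834), chain item 6: crossed homomorphisms.

`C` acts on the additive group `A`; `ZZ C A` is the group of crossed homomorphisms `f (x y) = f x + x • f y` with the action
`(c • f) x = c • f (c⁻¹ x c) = f x + (x • f c - f c)`; `bb v x = x • v - v`.
Everything below is used for `A = U0` and `A = U0^15`.
-/

set_option autoImplicit false

namespace QE29

/-- crossed homomorphisms -/
@[ext] structure ZZ (C A : Type) [Group C] [AddCommGroup A] [DistribMulAction C A] : Type where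
  /-- the function -/
  toFun : C → A
  map_mul' : ∀ x y, toFun (x * y) = toFun x + x • toFun y

variable {C A : Type} [Group C] [AddCommGroup A] [DistribMulAction C A]

instance : CoeFun (ZZ C A) (fun _ => C → A) := ⟨ZZ.toFun⟩

theorem ZZ.ext' {f g : ZZ C A} (h : ∀ x, f x = g x) : f = g := ZZ.ext (funext h)

@[simp] theorem ZZ.mk_apply (f : C → A) (h : ∀ x y, f (x * y) = f x + x • f y) (x : C) :
    (ZZ.mk f h : ZZ C A) x = f x := rfl

theorem ZZ.map_mul (f : ZZ C A) (x y : C) : f (x * y) = f x + x • f y := f.map_mul' x y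

instance : Zero (ZZ C A) := ⟨⟨fun _ => 0, fun x y => by simp⟩⟩

instance : Add (ZZ C A) := ⟨fun f g => ⟨fun x => f x + g x, fun x y => by
  rw [f.map_mul, g.map_mul, smul_add]
  abel⟩⟩

instance : Neg (ZZ C A) := ⟨fun f => ⟨fun x => -f x, fun x y => by
  rw [f.map_mul, smul_neg]
  abel⟩⟩

instance : Sub (ZZ C A) := ⟨fun f g => ⟨fun x => f x - g x, fun x y => by
  rw [f.map_mul, g.map_mul, smul_sub]
  abel⟩⟩

instance : SMul ℕ (ZZ C A) := ⟨fun n f => ⟨fun x => n • f x, fun x y => by
  rw [f.map_mul, nsmul_add, smul_comm n x]⟩⟩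

instance : SMul ℤ (ZZ C A) := ⟨fun n f => ⟨fun x => n • f x, fun x y => by
  rw [f.map_mul, zsmul_add, smul_comm n x]⟩⟩

theorem toFun_injective : Function.Injective (ZZ.toFun : ZZ C A → C → A) := fun _ _ h => ZZ.ext h

instance : AddCommGroup (ZZ C A) :=
  toFun_injective.addCommGroup ZZ.toFun rfl (fun _ _ => rfl) (fun _ => rfl) (fun _ _ => rfl)
    (fun _ _ => rfl) (fun _ _ => rfl)

instance [Finite C] [Finite A] : Finite (ZZ C A) := Finite.of_injective _ toFun_injective

@[simp] theorem ZZ.add_apply (f g : ZZ C A) (x : C) : (f + g) x = f x + g x := rfl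

@[simp] theorem ZZ.zero_apply (x : C) : (0 : ZZ C A) x = 0 := rfl

@[simp] theorem ZZ.neg_apply (f : ZZ C A) (x : C) : (-f) x = -f x := rfl

@[simp] theorem ZZ.sub_apply (f g : ZZ C A) (x : C) : (f - g) x = f x - g x := rfl

@[simp] theorem ZZ.map_one (f : ZZ C A) : f 1 = 0 := by
  have h := f.map_mul 1 1
  rw [mul_one, one_smul] at h
  exact left_eq_add.mp h

theorem ZZ.map_inv (f : ZZ C A) (x : C) : x • f x⁻¹ = -f x := by
  have h := f.map_mul x x⁻¹
  rw [mul_inv_cancel, f.map_one] at h
  exact (neg_eq_of_add_eq_zero_right h.symm).symm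

/-- coboundaries -/
def bb (v : A) : ZZ C A := ZZ.mk (fun x => x • v - v) (fun x y => by
  rw [mul_smul, smul_sub]
  abel)

@[simp] theorem bb_apply (v : A) (x : C) : (bb v : ZZ C A) x = x • v - v := rfl

/-- evaluation is additive -/
def ZZ.ev (x : C) : ZZ C A →+ A where
  toFun f := f x
  map_zero' := rfl
  map_add' _ _ := rfl

/-- `bb` as an additive map -/
def bbHom : A →+ ZZ C A where
  toFun := bb
  map_zero' := by
    refine ZZ.ext' fun x => ?_
    simp
  map_add' v w := by
    refine ZZ.ext' fun x => ?_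
    simp only [bb_apply, ZZ.add_apply, smul_add]
    abel

@[simp] theorem bbHom_apply (v : A) : (bbHom v : ZZ C A) = bb v := rfl

instance : SMul C (ZZ C A) := ⟨fun c f => ZZ.mk (fun x => c • f (c⁻¹ * x * c)) (fun x y => by
  have h : c⁻¹ * (x * y) * c = (c⁻¹ * x * c) * (c⁻¹ * y * c) := by group
  rw [h, f.map_mul, smul_add, ← mul_smul, ← mul_smul]
  congr 2
  group)⟩

theorem smul_apply (c : C) (f : ZZ C A) (x : C) : (c • f) x = c • f (c⁻¹ * x * c) := rfl

noncomputable instance : DistribMulAction C (ZZ C A) where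
  one_smul f := by
    refine ZZ.ext' fun x => ?_
    rw [smul_apply, one_smul, inv_one, one_mul, mul_one]
  mul_smul a b f := by
    refine ZZ.ext' fun x => ?_
    rw [smul_apply, smul_apply, smul_apply, mul_smul]
    congr 3
    group
  smul_zero c := by
    refine ZZ.ext' fun x => ?_
    rw [smul_apply, ZZ.zero_apply, smul_zero, ZZ.zero_apply]
  smul_add c f g := by
    refine ZZ.ext' fun x => ?_
    simp only [smul_apply, ZZ.add_apply, smul_add]

/-- `c • f = f + b(f c)` -/
theorem smul_eq (c : C) (f : ZZ C A) : c • f = f + bb (f c) := by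
  refine ZZ.ext' fun x => ?_
  have h : c • f c⁻¹ = -f c := f.map_inv c
  rw [smul_apply, ZZ.add_apply, bb_apply, mul_assoc, f.map_mul, smul_add, h, f.map_mul, ← mul_smul,
    mul_inv_cancel, one_smul]
  abel

theorem smul_apply' (c : C) (f : ZZ C A) (x : C) : (c • f) x = f x + (x • f c - f c) := by
  rw [smul_eq]
  rfl

theorem smul_bb (c : C) (v : A) : c • (bb v : ZZ C A) = bb (c • v) := by
  refine ZZ.ext' fun x => ?_
  rw [smul_apply, bb_apply, bb_apply, smul_sub, ← mul_smul, ← mul_smul]
  congr 2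
  group

/-- right multiplication -/
instance {R : Type} [Ring R] [Module R A] [SMulCommClass C R A] : SMul R (ZZ C A) :=
  ⟨fun r f => ZZ.mk (fun x => r • f x) (fun x y => by
    rw [f.map_mul, smul_add, smul_comm x r])⟩

section ring
variable {R : Type} [Ring R] [Module R A] [SMulCommClass C R A]

theorem rsmul_apply (r : R) (f : ZZ C A) (x : C) : (r • f) x = r • f x := rfl

noncomputable instance : Module R (ZZ C A) where
  one_smul f := by
    refine ZZ.ext' fun x => ?_
    rw [rsmul_apply, one_smul]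
  mul_smul a b f := by
    refine ZZ.ext' fun x => ?_
    rw [rsmul_apply, rsmul_apply, rsmul_apply, mul_smul]
  smul_zero c := by
    refine ZZ.ext' fun x => ?_
    rw [rsmul_apply, ZZ.zero_apply, smul_zero]
  smul_add c f g := by
    refine ZZ.ext' fun x => ?_
    simp only [rsmul_apply, ZZ.add_apply, smul_add]
  add_smul a b f := by
    refine ZZ.ext' fun x => ?_
    simp only [rsmul_apply, ZZ.add_apply, add_smul]
  zero_smul f := by
    refine ZZ.ext' fun x => ?_
    rw [rsmul_apply, zero_smul, ZZ.zero_apply]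

instance : SMulCommClass C R (ZZ C A) where
  smul_comm c r f := by
    refine ZZ.ext' fun x => ?_
    rw [smul_apply, rsmul_apply, rsmul_apply, smul_apply, smul_comm c r]

end ring

/-! ### the facts -/

theorem bb_injective (hfix : ∀ v : A, (∀ c : C, c • v = v) → v = 0) : Function.Injective (bb : A → ZZ C A) := by
  intro v w h
  have h2 : ∀ c : C, c • (v - w) = v - w := by
    intro c
    have h3 : (bb v : ZZ C A) c = (bb w : ZZ C A) c := by rw [h]
    rw [bb_apply, bb_apply] at h3
    rw [smul_sub]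
    have : c • v - c • w = v - w := by
      rw [sub_eq_sub_iff_add_eq_add] at h3 ⊢
      rw [h3, add_comm v]
    exact this
  exact sub_eq_zero.1 (hfix _ h2)

theorem ev_smul_sub (c : C) (f : ZZ C A) : c • f - f = bb (f c) := by
  rw [smul_eq, add_sub_cancel_left]

/-- no fixed points -/
theorem fix (hfix : ∀ v : A, (∀ c : C, c • v = v) → v = 0) (f : ZZ C A) (hf : ∀ c : C, c • f = f) :
    f = 0 := by
  refine ZZ.ext' fun c => ?_
  have h := ev_smul_sub c f
  rw [hf c, sub_self] at h
  have h2 : (bb (f c) : ZZ C A) = bb 0 := by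
    rw [← h]
    refine ZZ.ext' fun x => ?_
    simp
  exact bb_injective hfix h2

/-- a semilinear additive map of `ZZ C A` comes from a semilinear map of `A` -/
theorem semilinear (hfix : ∀ v : A, (∀ c : C, c • v = v) → v = 0)
    (hgen : AddSubgroup.closure {v : A | ∃ (f : ZZ C A) (c : C), v = f c} = ⊤)
    (θ : MulAut C) (g : ZZ C A →+ ZZ C A) (hg : ∀ (c : C) (f : ZZ C A), g (c • f) = θ c • g f) :
    ∃ ψ : A →+ A, (∀ v, g (bb v) = bb (ψ v)) ∧ (∀ (f : ZZ C A) (c : C), ψ (f c) = g f (θ c)) ∧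
      ∀ (c : C) (v : A), ψ (c • v) = θ c • ψ v := by
  have hinj := bb_injective hfix
  have h1 : ∀ v : A, ∃ w : A, g (bb v) = bb w := by
    intro v
    have hv : v ∈ AddSubgroup.closure {v : A | ∃ (f : ZZ C A) (c : C), v = f c} := by
      rw [hgen]
      exact AddSubgroup.mem_top v
    refine AddSubgroup.closure_induction (p := fun v _ => ∃ w : A, g (bb v) = bb w) ?_ ?_ ?_ ?_ hv
    · rintro x ⟨f, c, rfl⟩
      refine ⟨g f (θ c), ?_⟩
      rw [← ev_smul_sub, map_sub, hg, ev_smul_sub]
    · exact ⟨0, by rw [← bbHom_apply, map_zero, map_zero, ]⟩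
    · rintro x y _ _ ⟨w, hw⟩ ⟨w', hw'⟩
      refine ⟨w + w', ?_⟩
      rw [← bbHom_apply, map_add, map_add, bbHom_apply, bbHom_apply, hw, hw', ← bbHom_apply (w + w'), map_add]
      rfl
    · rintro x _ ⟨w, hw⟩
      refine ⟨-w, ?_⟩
      rw [← bbHom_apply, map_neg, map_neg, bbHom_apply, hw, ← bbHom_apply (-w), map_neg]
      rfl
  choose ψ hψ using h1
  let Ψ : A →+ A :=
    { toFun := ψ
      map_zero' := by
        apply hinj
        rw [← hψ, ← bbHom_apply, map_zero, map_zero, ]
      map_add' := fun v w => by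
        apply hinj
        rw [← hψ, ← bbHom_apply, map_add, map_add, bbHom_apply, bbHom_apply, hψ, hψ, ← bbHom_apply (ψ v + ψ w),
          map_add]
        rfl }
  have hΨ : ∀ v, g (bb v) = bb (Ψ v) := hψ
  refine ⟨Ψ, hΨ, ?_, ?_⟩
  · intro f c
    apply hinj
    rw [← hΨ, ← ev_smul_sub, map_sub, hg, ev_smul_sub]
  · intro c v
    apply hinj
    rw [← hΨ, ← smul_bb, hg, hΨ, smul_bb]

/-- bijective version -/
theorem semilinear_equiv (hfix : ∀ v : A, (∀ c : C, c • v = v) → v = 0)
    (hgen : AddSubgroup.closure {v : A | ∃ (f : ZZ C A) (c : C), v = f c} = ⊤)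
    (θ : MulAut C) (g : ZZ C A ≃+ ZZ C A) (hg : ∀ (c : C) (f : ZZ C A), g (c • f) = θ c • g f) :
    ∃ ψ : A ≃+ A, (∀ (f : ZZ C A) (c : C), ψ (f c) = g f (θ c)) ∧
      ∀ (c : C) (v : A), ψ (c • v) = θ c • ψ v := by
  have hinj := bb_injective (C := C) hfix
  obtain ⟨ψ, h1, h2, h3⟩ := semilinear hfix hgen θ g.toAddMonoidHom hg
  have hg' : ∀ (c : C) (f : ZZ C A), g.symm (c • f) = θ⁻¹ c • g.symm f := by
    intro c f
    apply g.injective
    rw [hg, g.apply_symm_apply, g.apply_symm_apply, MulAut.apply_inv_self]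
  obtain ⟨ψ', h1', h2', h3'⟩ := semilinear hfix hgen θ⁻¹ g.symm.toAddMonoidHom hg'
  refine ⟨{ toFun := ψ, invFun := ψ', left_inv := ?_, right_inv := ?_, map_add' := map_add ψ }, h2, h3⟩
  · intro v
    apply hinj
    rw [← h1', ← h1]
    exact g.symm_apply_apply _
  · intro v
    apply hinj
    rw [← h1, ← h1']
    exact g.apply_symm_apply _

/-- an additive endomorphism commuting with `C` is post-composition with one of `A` -/
theorem endo (hfix : ∀ v : A, (∀ c : C, c • v = v) → v = 0)
    (hgen : AddSubgroup.closure {v : A | ∃ (f : ZZ C A) (c : C), v = f c} = ⊤)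
    (g : ZZ C A →+ ZZ C A) (hg : ∀ (c : C) (f : ZZ C A), g (c • f) = c • g f) :
    ∃ ψ : A →+ A, (∀ (f : ZZ C A) (c : C), g f c = ψ (f c)) ∧ ∀ (c : C) (v : A), ψ (c • v) = c • ψ v := by
  obtain ⟨ψ, h1, h2, h3⟩ := semilinear hfix hgen 1 g hg
  exact ⟨ψ, fun f c => (h2 f c).symm, h3⟩

theorem map_pow_of_trivial {c : C} (hc : ∀ v : A, c • v = v) (f : ZZ C A) (n : ℕ) : f (c ^ n) = n • f c := by
  induction n with
  | zero => simp
  | succ n ih =>
    have h : ∀ (m : ℕ) (v : A), c ^ m • v = v := by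
      intro m v
      induction m with
      | zero => simp
      | succ m ih => rw [pow_succ, mul_smul, hc, ih]
    rw [pow_succ, f.map_mul, ih, h, succ_nsmul]

/-- elements of odd order acting trivially on `A` act trivially on `ZZ C A` -/
theorem trivial_of_odd (h2 : ∀ v : A, v + v = 0) {c : C} (hc : ∀ v : A, c • v = v) {n : ℕ} (hn : Odd n)
    (h : c ^ n = 1) (f : ZZ C A) : c • f = f := by
  have h1 := map_pow_of_trivial hc f n
  rw [h, f.map_one] at h1
  obtain ⟨k, rfl⟩ := hn
  have h2' : 2 • f c = 0 := by rw [two_nsmul, h2]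
  rw [succ_nsmul, mul_nsmul, h2', nsmul_zero, zero_add] at h1
  rw [smul_eq, ← h1]
  refine ZZ.ext' fun x => ?_
  simp

/-- the centre of the image -/
theorem imgCenter (hfix : ∀ v : A, (∀ c : C, c • v = v) → v = 0)
    (hcen : ∀ c : C, (∀ (c' : C) (v : A), c • c' • v = c' • c • v) → ∀ v : A, c • v = v)
    (c : C) (hc : ∀ (c' : C) (f : ZZ C A), c • c' • f = c' • c • f) (f : ZZ C A) : c • f = f := by
  have hinj := bb_injective (C := C) hfix
  have h1 : ∀ v : A, c • v = v := by
    apply hcen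
    intro c' v
    apply hinj
    have h2 := hc c' (bb v)
    rw [smul_bb, smul_bb, smul_bb, smul_bb] at h2
    exact h2
  have h3 : f c = 0 := by
    apply hfix
    intro c'
    have h4 := hc c' f
    rw [smul_eq c (c' • f), smul_eq c f, smul_add, smul_bb] at h4
    have h5 := hinj (add_left_cancel h4)
    rw [← h5, smul_apply', h1, sub_self, add_zero]
  rw [smul_eq, h3]
  refine ZZ.ext' fun x => ?_
  simp

end QE29
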